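import Pool.Agent.Lib.MP_8eacf3_gt.Flats

set_option autoImplicit false

/-!
# MP_8eacf3_gt: the action on the product and the main theorem
-/

namespace Pool.Agent.Lib.MP_8eacf3_gt

open Set

section

variable {Y : Type} [MetricSpace Y]

theorem continuous_fst' : Continuous (fun p : PL Y => p.fst) :=
  continuous_fst.comp (WithLp.homeomorphProd 2 Y ℝ).continuous

theorem continuous_snd' : Continuous (fun p : PL Y => p.snd) :=
  continuous_snd.comp (WithLp.homeomorphProd 2 Y ℝ).continuous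

theorem continuous_pt : Continuous (fun q : Y × ℝ => pt q.1 q.2) :=
  (WithLp.homeomorphProd 2 Y ℝ).symm.continuous

instance locallyCompact [LocallyCompactSpace Y] : LocallyCompactSpace (PL Y) :=
  (WithLp.homeomorphProd 2 Y ℝ).isClosedEmbedding.locallyCompactSpace

variable (Γ : Type) [Group Γ] [MulAction Γ Y]

/-- The action of `Γ × ℤ` on the product. -/
@[reducible] def prodAction : MulAction (Γ × Multiplicative ℤ) (PL Y) where
  smul g p := pt (g.1 • p.fst) (p.snd + (Multiplicative.toAdd g.2 : ℤ))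
  one_smul p := by
    show pt ((1 : Γ) • p.fst) (p.snd + ((0 : ℤ) : ℝ)) = p
    rw [one_smul, Int.cast_zero, add_zero]
    rfl
  mul_smul g h p := by
    show pt ((g.1 * h.1) • p.fst) (p.snd + ((Multiplicative.toAdd g.2 + Multiplicative.toAdd h.2 : ℤ) : ℝ))
      = pt (g.1 • (h.1 • p.fst)) (p.snd + (Multiplicative.toAdd h.2 : ℤ) + (Multiplicative.toAdd g.2 : ℤ))
    have e : p.snd + ((Multiplicative.toAdd g.2 + Multiplicative.toAdd h.2 : ℤ) : ℝ)
        = p.snd + (Multiplicative.toAdd h.2 : ℤ) + (Multiplicative.toAdd g.2 : ℤ) := by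
      push_cast
      ring
    rw [mul_smul, e]

variable {Γ}

theorem smul_fst (g : Γ × Multiplicative ℤ) (p : PL Y) :
    letI := prodAction (Y := Y) Γ
    (g • p).fst = g.1 • p.fst := rfl

theorem smul_snd (g : Γ × Multiplicative ℤ) (p : PL Y) :
    letI := prodAction (Y := Y) Γ
    (g • p).snd = p.snd + (Multiplicative.toAdd g.2 : ℤ) := rfl

theorem prod_proper [ProperlyDiscontinuousSMul Γ Y] :
    letI := prodAction (Y := Y) Γ
    ProperlyDiscontinuousSMul (Γ × Multiplicative ℤ) (PL Y) := by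
  letI := prodAction (Y := Y) Γ
  refine ⟨fun {K L} hK hL => ?_⟩
  have h1 := ProperlyDiscontinuousSMul.finite_disjoint_inter_image (Γ := Γ)
    (hK.image continuous_fst') (hL.image continuous_fst')
  obtain ⟨R, hR⟩ := ((hK.image continuous_snd').union (hL.image continuous_snd')).isBounded.subset_closedBall 0
  have h2 : Set.Finite {k : Multiplicative ℤ | |((Multiplicative.toAdd k : ℤ) : ℝ)| ≤ 2 * R} := by
    have h3 : Set.Finite (Icc (-⌊2 * R⌋) ⌊2 * R⌋ : Set ℤ) := Set.finite_Icc _ _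
    refine (h3.preimage (f := Multiplicative.toAdd) Multiplicative.toAdd.injective.injOn).subset ?_
    intro k hk
    have hk' : -(2 * R) ≤ ((Multiplicative.toAdd k : ℤ) : ℝ) ∧
      ((Multiplicative.toAdd k : ℤ) : ℝ) ≤ 2 * R := abs_le.1 hk
    constructor
    · have : -(Multiplicative.toAdd k : ℤ) ≤ ⌊2 * R⌋ := Int.le_floor.2 (by push_cast; linarith)
      show -⌊2 * R⌋ ≤ (Multiplicative.toAdd k : ℤ)
      linarith
    · exact Int.le_floor.2 hk'.2
  refine (h1.prod h2).subset ?_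
  rintro g hg
  obtain ⟨q, ⟨p, hp, hpq⟩, hq⟩ := hg
  have hpq : g • p = q := hpq
  refine ⟨?_, ?_⟩
  · refine ⟨q.fst, ⟨p.fst, ⟨p, hp, rfl⟩, ?_⟩, ⟨q, hq, rfl⟩⟩
    rw [← hpq]
    rfl
  · have e1 : q.snd = p.snd + ((Multiplicative.toAdd g.2 : ℤ) : ℝ) := by rw [← hpq]; rfl
    have e2 := hR (Or.inl ⟨p, hp, rfl⟩)
    have e3 := hR (Or.inr ⟨q, hq, rfl⟩)
    rw [Metric.mem_closedBall, Real.dist_eq, sub_zero] at e2 e3
    show |((Multiplicative.toAdd g.2 : ℤ) : ℝ)| ≤ 2 * R
    have e4 : ((Multiplicative.toAdd g.2 : ℤ) : ℝ) = q.snd - p.snd := by rw [e1]; ring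
    rw [e4]
    exact (abs_sub _ _).trans (by linarith)

theorem prod_isometric (h : ∀ (g : Γ) (x y : Y), dist (g • x) (g • y) = dist x y) :
    letI := prodAction (Y := Y) Γ
    ∀ (g : Γ × Multiplicative ℤ) (x y : PL Y), dist (g • x) (g • y) = dist x y := by
  letI := prodAction (Y := Y) Γ
  intro g x y
  rw [dist_eq_iff dist_nonneg]
  show dist (g.1 • x.fst) (g.1 • y.fst) ^ 2 + (x.snd + ((Multiplicative.toAdd g.2 : ℤ) : ℝ)
    - (y.snd + ((Multiplicative.toAdd g.2 : ℤ) : ℝ))) ^ 2 = _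
  rw [h, dist_sq]
  ring

theorem prod_cocompact (h : ∃ K : Set Y, IsCompact K ∧ ∀ x : Y, ∃ g : Γ, g • x ∈ K) :
    letI := prodAction (Y := Y) Γ
    ∃ K : Set (PL Y), IsCompact K ∧ ∀ x : PL Y, ∃ g : Γ × Multiplicative ℤ, g • x ∈ K := by
  letI := prodAction (Y := Y) Γ
  obtain ⟨K, hK, hKx⟩ := h
  refine ⟨(fun q : Y × ℝ => pt q.1 q.2) '' (K ×ˢ Icc 0 1),
    (hK.prod isCompact_Icc).image continuous_pt, fun x => ?_⟩
  obtain ⟨g, hg⟩ := hKx x.fst
  refine ⟨(g, Multiplicative.ofAdd (-⌊x.snd⌋)), (g • x.fst, x.snd + ((-⌊x.snd⌋ : ℤ) : ℝ)),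
    ⟨hg, ?_, ?_⟩, rfl⟩
  · show 0 ≤ x.snd + ((-⌊x.snd⌋ : ℤ) : ℝ)
    push_cast
    linarith [Int.floor_le x.snd]
  · show x.snd + ((-⌊x.snd⌋ : ℤ) : ℝ) ≤ 1
    push_cast
    linarith [Int.lt_floor_add_one x.snd]

/-- A periodic flat of maximal dimension in the product gives one in the factor. -/
theorem periodic_factor {m : ℕ} (hr : HasRank Y m)
    (h : letI := prodAction (Y := Y) Γ
      HasPeriodicFlat (Γ × Multiplicative ℤ) (PL Y) (m + 1)) : HasPeriodicFlat Γ Y m := by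
  letI := prodAction (Y := Y) Γ
  obtain ⟨G, hG, K, hK, hKG, hper⟩ := h
  obtain ⟨f, hf, hfG⟩ := flat_split hG hr.2
  refine ⟨f, hf, (fun p : PL Y => p.fst) '' K, hK.image continuous_fst', ?_, fun x hx => ?_⟩
  · rintro _ ⟨p, hp, rfl⟩
    exact (hfG p).1 (hKG hp)
  · obtain ⟨g, hg, hgK⟩ := hper (pt x 0) ((hfG _).2 hx)
    refine ⟨g.1, fun y => ?_, ⟨_, hgK, rfl⟩⟩
    have h1 := hg (pt y 0)
    rw [hfG, hfG] at h1
    exact h1

/-- A periodic flat in the factor gives one in the product. -/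
theorem periodic_prod {m : ℕ} (h : HasPeriodicFlat Γ Y m) :
    letI := prodAction (Y := Y) Γ
    HasPeriodicFlat (Γ × Multiplicative ℤ) (PL Y) (m + 1) := by
  letI := prodAction (Y := Y) Γ
  obtain ⟨f, hf, K, hK, hKf, hper⟩ := h
  have hrange : ∀ p : PL Y, p ∈ range (fun x : EuclideanSpace ℝ (Fin (m + 1)) =>
      pt (f (WithLp.toLp 2 fun i => x i.castSucc)) (x (Fin.last m))) ↔ p.fst ∈ range f := by
    intro p
    constructor
    · rintro ⟨x, rfl⟩
      exact ⟨_, rfl⟩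
    · rintro ⟨x, hx⟩
      refine ⟨WithLp.toLp 2 (Fin.snoc (α := fun _ => ℝ) (fun i => x i) p.snd), ?_⟩
      have e1 : (WithLp.toLp 2 fun i : Fin m =>
          (WithLp.toLp 2 (Fin.snoc (α := fun _ => ℝ) (fun i => x i) p.snd) :
            EuclideanSpace ℝ (Fin (m + 1))) i.castSucc) = x := by
        ext i
        simp
      have e2 : (WithLp.toLp 2 (Fin.snoc (α := fun _ => ℝ) (fun i => x i) p.snd) :
            EuclideanSpace ℝ (Fin (m + 1))) (Fin.last m) = p.snd := by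
        simp
      show pt (f _) _ = p
      rw [e1, e2, hx]
      rfl
  refine ⟨fun x => pt (f (WithLp.toLp 2 fun i => x i.castSucc)) (x (Fin.last m)),
    Isometry.of_dist_eq fun x y => ?_, (fun q : Y × ℝ => pt q.1 q.2) '' (K ×ˢ Icc 0 1),
    (hK.prod isCompact_Icc).image continuous_pt, ?_, fun x hx => ?_⟩
  · rw [dist_eq_iff dist_nonneg]
    show dist (f (WithLp.toLp 2 fun i => x i.castSucc)) (f (WithLp.toLp 2 fun i => y i.castSucc)) ^ 2
      + (x (Fin.last m) - y (Fin.last m)) ^ 2 = _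
    rw [hf.dist_eq, EuclideanSpace.dist_eq, EuclideanSpace.dist_eq,
      Real.sq_sqrt (Finset.sum_nonneg fun i _ => by positivity),
      Real.sq_sqrt (Finset.sum_nonneg fun i _ => by positivity), Fin.sum_univ_castSucc]
    congr 1
    rw [Real.dist_eq, sq_abs]
  · rintro _ ⟨q, hq, rfl⟩
    exact (hrange _).2 (hKf hq.1)
  · obtain ⟨g, hg, hgK⟩ := hper x.fst ((hrange x).1 hx)
    refine ⟨(g, Multiplicative.ofAdd (-⌊x.snd⌋)), fun y => ?_, ?_⟩
    · rw [hrange, hrange]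
      exact hg y.fst
    · refine ⟨(g • x.fst, x.snd + ((-⌊x.snd⌋ : ℤ) : ℝ)), ⟨hgK, ?_, ?_⟩, rfl⟩
      · show 0 ≤ x.snd + ((-⌊x.snd⌋ : ℤ) : ℝ)
        push_cast
        linarith [Int.floor_le x.snd]
      · show x.snd + ((-⌊x.snd⌋ : ℤ) : ℝ) ≤ 1
        push_cast
        linarith [Int.lt_floor_add_one x.snd]

/-- In a geodesically complete space of positive rank there is a complete geodesic through every
point. -/
theorem exists_line {m : ℕ} (hm : 1 ≤ m) (hc : IsCAT0 Y) (hg : IsGeodesicallyComplete Y)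
    (hr : HasRank Y m) (y : Y) : ∃ e : ℝ → Y, Isometry e ∧ e 0 = y := by
  obtain ⟨f, hf⟩ := hr.1
  obtain ⟨y', hy'⟩ : ∃ y', y' ≠ y := by
    by_contra hcon
    push Not at hcon
    have : Nontrivial (EuclideanSpace ℝ (Fin m)) := by
      have : Nonempty (Fin m) := ⟨⟨0, hm⟩⟩
      infer_instance
    obtain ⟨a, b, hab⟩ := exists_pair_ne (EuclideanSpace ℝ (Fin m))
    exact hab (hf.injective ((hcon (f a)).trans (hcon (f b)).symm))
  obtain ⟨c, hc0, -, hcd⟩ := hc.1 y y'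
  have hpos : 0 < dist y y' := dist_pos.2 (Ne.symm hy')
  obtain ⟨c', hc', hcc⟩ := hg 0 (dist y y') c hpos hcd
  exact ⟨c', hc', by rw [hcc 0 ⟨le_refl _, hpos.le⟩, hc0]⟩

end

/-- The closing problem for spaces of Tits diameter `π` in rank `m + 1` contains the closing
problem for all spaces of rank `m`. -/
theorem closing_of_diam {m : ℕ} (hm : 1 ≤ m) (h : TitsDiameterPiFlatClosing (m + 1)) :
    MaximalFlatClosing m := by
  intro Y _ _ hc hg hr Γ _ _ _ hiso hcoc
  letI := prodAction (Y := Y) Γ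
  haveI := prod_proper (Y := Y) (Γ := Γ)
  exact periodic_factor hr (h (PL Y) (prod_cat0 hc) (prod_complete hg) (prod_rank hr)
    (prod_halfPlanes (exists_line hm hc hg hr)) (Γ × Multiplicative ℤ) (prod_isometric hiso)
    (prod_cocompact hcoc))

theorem diam_of_closing {n : ℕ} (h : MaximalFlatClosing n) : TitsDiameterPiFlatClosing n :=
  fun X _ _ hc hg hr _ Γ _ _ _ hiso hcoc => h X hc hg hr Γ hiso hcoc

end Pool.Agent.Lib.MP_8eacf3_gt
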