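import Mathlib

set_option autoImplicit false

/-!
# MP_8eacf3_gt: periodic maximal flats, definitions
-/

namespace Pool.Agent.Lib.MP_8eacf3_gt

/-- `X` is a CAT(0) space: a geodesic space with the inequality of Bruhat and Tits (the CN
inequality). -/
def IsCAT0 (X : Type) [MetricSpace X] : Prop :=
  (∀ x y : X, ∃ c : ℝ → X, c 0 = x ∧ c (dist x y) = y ∧
    ∀ s ∈ Set.Icc (0 : ℝ) (dist x y), ∀ t ∈ Set.Icc (0 : ℝ) (dist x y),
      dist (c s) (c t) = |s - t|) ∧
  ∀ x y m z : X, dist x m = dist x y / 2 → dist y m = dist x y / 2 →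
    dist z m ^ 2 ≤ (dist z x ^ 2 + dist z y ^ 2) / 2 - dist x y ^ 2 / 4

/-- `X` is geodesically complete: every geodesic segment (of positive length) is contained in a
complete geodesic. -/
def IsGeodesicallyComplete (X : Type) [MetricSpace X] : Prop :=
  ∀ (a b : ℝ) (c : ℝ → X), a < b →
    (∀ s ∈ Set.Icc a b, ∀ t ∈ Set.Icc a b, dist (c s) (c t) = |s - t|) →
    ∃ c' : ℝ → X, Isometry c' ∧ ∀ s ∈ Set.Icc a b, c' s = c s

/-- `X` has rank `n`: it contains an `n`-flat but no `(n + 1)`-flat. -/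
def HasRank (X : Type) [MetricSpace X] (n : ℕ) : Prop :=
  (∃ f : EuclideanSpace ℝ (Fin n) → X, Isometry f) ∧
    ¬ ∃ f : EuclideanSpace ℝ (Fin (n + 1)) → X, Isometry f

/-- Every complete geodesic of `X` bounds a flat half-plane (for the spaces of the problem this
means that the Tits boundary has diameter `π`). -/
def LinesBoundHalfPlanes (X : Type) [MetricSpace X] : Prop :=
  ∀ c : ℝ → X, Isometry c → ∃ h : ℝ × ℝ → X, (∀ t : ℝ, h (t, 0) = c t) ∧
    ∀ p q : ℝ × ℝ, 0 ≤ p.2 → 0 ≤ q.2 →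
      dist (h p) (h q) = Real.sqrt ((p.1 - q.1) ^ 2 + (p.2 - q.2) ^ 2)

/-- `X` contains an `n`-flat whose stabilizer in `Γ` acts cocompactly on it. -/
def HasPeriodicFlat (Γ X : Type) [MetricSpace X] [Group Γ] [MulAction Γ X] (n : ℕ) : Prop :=
  ∃ f : EuclideanSpace ℝ (Fin n) → X, Isometry f ∧
    ∃ K : Set X, IsCompact K ∧ K ⊆ Set.range f ∧
      ∀ x ∈ Set.range f, ∃ g : Γ,
        (∀ y : X, y ∈ Set.range f ↔ g • y ∈ Set.range f) ∧ g • x ∈ K

/-- The closing problem for maximal flats in rank `n`: for every geometric action of a group `Γ` on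
a locally compact, geodesically complete CAT(0) space `X` of rank `n` there is a `Γ`-periodic
`n`-flat in `X`. -/
def MaximalFlatClosing (n : ℕ) : Prop :=
  ∀ (X : Type) [MetricSpace X] [LocallyCompactSpace X],
    IsCAT0 X → IsGeodesicallyComplete X → HasRank X n →
    ∀ (Γ : Type) [Group Γ] [MulAction Γ X] [ProperlyDiscontinuousSMul Γ X],
      (∀ (g : Γ) (x y : X), dist (g • x) (g • y) = dist x y) →
      (∃ K : Set X, IsCompact K ∧ ∀ x : X, ∃ g : Γ, g • x ∈ K) →
      HasPeriodicFlat Γ X n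

/-- The statement of Q1 for one `n`: the same as `MaximalFlatClosing n`, but only for the spaces of
Tits diameter `π`. -/
def TitsDiameterPiFlatClosing (n : ℕ) : Prop :=
  ∀ (X : Type) [MetricSpace X] [LocallyCompactSpace X],
    IsCAT0 X → IsGeodesicallyComplete X → HasRank X n → LinesBoundHalfPlanes X →
    ∀ (Γ : Type) [Group Γ] [MulAction Γ X] [ProperlyDiscontinuousSMul Γ X],
      (∀ (g : Γ) (x y : X), dist (g • x) (g • y) = dist x y) →
      (∃ K : Set X, IsCompact K ∧ ∀ x : X, ∃ g : Γ, g • x ∈ K) →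
      HasPeriodicFlat Γ X n

end Pool.Agent.Lib.MP_8eacf3_gt
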