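import Pool.Agent.Lib.MP_8eacf3_gt.Prod

set_option autoImplicit false

/-!
# MP_8eacf3_gt: flats in the product of a CAT(0) space with the line
-/

namespace Pool.Agent.Lib.MP_8eacf3_gt

open Set Module

section

variable {Y : Type} [MetricSpace Y]

/-- The height on a flat of the product is an affine function. -/
theorem height_affine {E : Type} [NormedAddCommGroup E] [InnerProductSpace ℝ E]
    {G : E → PL Y} (hG : Isometry G) :
    ∃ W : E →L[ℝ] ℝ, ∀ x, (G x).snd = (G 0).snd + W x := by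
  -- midpoints
  have mid : ∀ x y : E, (G ((1 / 2 : ℝ) • (x + y))).snd = ((G x).snd + (G y).snd) / 2 := by
    intro x y
    have e1 : dist (G x) (G ((1 / 2 : ℝ) • (x + y))) = 1 / 2 * dist (G x) (G y) := by
      rw [hG.dist_eq, hG.dist_eq, dist_eq_norm, dist_eq_norm]
      have : x - (1 / 2 : ℝ) • (x + y) = (1 / 2 : ℝ) • (x - y) := by module
      rw [this, norm_smul]
      norm_num
    have e2 : dist (G ((1 / 2 : ℝ) • (x + y))) (G y) = (1 - 1 / 2) * dist (G x) (G y) := by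
      rw [hG.dist_eq, hG.dist_eq, dist_eq_norm, dist_eq_norm]
      have : (1 / 2 : ℝ) • (x + y) - y = (1 / 2 : ℝ) • (x - y) := by module
      rw [this, norm_smul]
      norm_num
    obtain ⟨-, -, h3⟩ := three_points (by norm_num) (by norm_num) e1 e2
    rw [h3]
    ring
  set w : E → ℝ := fun x => (G x).snd - (G 0).snd with hw
  have w0 : w 0 = 0 := by simp [hw]
  have wmid : ∀ x y, w ((1 / 2 : ℝ) • (x + y)) = (w x + w y) / 2 := by
    intro x y
    simp only [hw, mid]
    ring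
  have whalf : ∀ x, w ((1 / 2 : ℝ) • x) = w x / 2 := by
    intro x
    have := wmid x 0
    rwa [add_zero, w0, add_zero] at this
  have wadd : ∀ x y, w (x + y) = w x + w y := by
    intro x y
    have h1 := wmid x y
    rw [whalf] at h1
    linarith
  have wlip : LipschitzWith 1 w := by
    refine LipschitzWith.of_dist_le_mul fun x y => ?_
    rw [NNReal.coe_one, one_mul, ← hG.dist_eq x y]
    have h1 := dist_sq (G x) (G y)
    rw [Real.dist_eq]
    have h2 : w x - w y = (G x).snd - (G y).snd := by simp [hw]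
    rw [h2]
    refine abs_le_of_sq_le_sq' ?_ dist_nonneg |> abs_le.2
    nlinarith [sq_nonneg (dist (G x).fst (G y).fst)]
  let φ : E →+ ℝ := { toFun := w, map_zero' := w0, map_add' := wadd }
  refine ⟨φ.toRealLinearMap wlip.continuous, fun x => ?_⟩
  show (G x).snd = (G 0).snd + w x
  simp [hw]

/-- A linear isometric embedding onto the orthogonal complement of a unit vector. -/
theorem exists_embedding {N : ℕ} {e : EuclideanSpace ℝ (Fin (N + 1))} (he : ‖e‖ = 1) :
    ∃ j : EuclideanSpace ℝ (Fin N) →ₗᵢ[ℝ] EuclideanSpace ℝ (Fin (N + 1)),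
      (∀ x, inner ℝ e (j x) = 0) ∧ ∀ z, inner ℝ e z = 0 → ∃ x, j x = z := by
  have hne : e ≠ 0 := by
    intro h
    rw [h, norm_zero] at he
    exact zero_ne_one he
  have : Fact (finrank ℝ (EuclideanSpace ℝ (Fin (N + 1))) = N + 1) := ⟨by simp⟩
  let b := OrthonormalBasis.fromOrthogonalSpanSingleton (𝕜 := ℝ) N hne
  refine ⟨(Submodule.subtypeₗᵢ _).comp b.repr.symm.toLinearIsometry, fun x => ?_, fun z hz => ?_⟩
  · have := (b.repr.symm x).2
    rw [Submodule.mem_orthogonal_singleton_iff_inner_right] at this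
    exact this
  · have hz' : z ∈ (ℝ ∙ e)ᗮ := by
      rw [Submodule.mem_orthogonal_singleton_iff_inner_right]
      exact hz
    refine ⟨b.repr ⟨z, hz'⟩, ?_⟩
    show ((b.repr.symm (b.repr ⟨z, hz'⟩) : (ℝ ∙ e)ᗮ) : EuclideanSpace ℝ (Fin (N + 1))) = z
    rw [LinearIsometryEquiv.symm_apply_apply]

/-- Coordinates on a flat of the product. -/
theorem flat_coordinates {N : ℕ} {G : EuclideanSpace ℝ (Fin (N + 1)) → PL Y} (hG : Isometry G) :
    ∃ (e : EuclideanSpace ℝ (Fin (N + 1))) (κ : ℝ), ‖e‖ = 1 ∧ 0 ≤ κ ∧ κ ≤ 1 ∧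
      (∀ x, (G x).snd = (G 0).snd + κ * inner ℝ e x) ∧
      ∀ x y, dist (G x).fst (G y).fst ^ 2 = ‖x - y‖ ^ 2 - κ ^ 2 * (inner ℝ e (x - y)) ^ 2 := by
  obtain ⟨W, hW⟩ := height_affine hG
  set v := (InnerProductSpace.toDual ℝ (EuclideanSpace ℝ (Fin (N + 1)))).symm W with hv
  have hWv : ∀ x, W x = inner ℝ v x := fun x => by
    rw [hv, InnerProductSpace.toDual_symm_apply]
  obtain ⟨e, he, hve⟩ : ∃ e : EuclideanSpace ℝ (Fin (N + 1)), ‖e‖ = 1 ∧ v = ‖v‖ • e := by
    by_cases h0 : v = 0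
    · obtain ⟨e, he⟩ := exists_norm_eq (EuclideanSpace ℝ (Fin (N + 1))) (zero_le_one' ℝ)
      exact ⟨e, he, by rw [h0]; simp⟩
    · refine ⟨‖v‖⁻¹ • v, ?_, ?_⟩
      · rw [norm_smul, norm_inv, norm_norm, inv_mul_cancel₀ (norm_ne_zero_iff.2 h0)]
      · rw [smul_smul, mul_inv_cancel₀ (norm_ne_zero_iff.2 h0), one_smul]
  have hWe : ∀ x, W x = ‖v‖ * inner ℝ e x := fun x => by
    rw [hWv, hve, inner_smul_left, norm_smul, he]
    simp
  have hd : ∀ x y, dist (G x).fst (G y).fst ^ 2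
      = ‖x - y‖ ^ 2 - ‖v‖ ^ 2 * (inner ℝ e (x - y)) ^ 2 := by
    intro x y
    have h1 := dist_sq (G x) (G y)
    rw [hG.dist_eq, dist_eq_norm, hW x, hW y, hWe, hWe] at h1
    rw [inner_sub_right]
    nlinarith
  refine ⟨e, ‖v‖, he, norm_nonneg _, ?_, fun x => by rw [hW, hWe], hd⟩
  have h1 := hd e 0
  rw [sub_zero, he, real_inner_self_eq_norm_sq, he] at h1
  have h2 := sq_nonneg (dist (G e).fst (G 0).fst)
  have h3 : ‖v‖ ^ 2 ≤ 1 := by nlinarith
  exact (sq_le_one_iff₀ (norm_nonneg _)).1 h3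

/-- The flats of the product of dimension `N + 1` give flats of dimension `N` in the factor. -/
theorem flat_factor {N : ℕ} {G : EuclideanSpace ℝ (Fin (N + 1)) → PL Y} (hG : Isometry G) :
    ∃ f : EuclideanSpace ℝ (Fin N) → Y, Isometry f := by
  obtain ⟨e, κ, he, -, -, -, hd⟩ := flat_coordinates hG
  obtain ⟨j, hj, -⟩ := exists_embedding he
  refine ⟨fun x => (G (j x)).fst, Isometry.of_dist_eq fun x y => ?_⟩
  have h1 := hd (j x) (j y)
  rw [← map_sub, hj, j.norm_map] at h1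
  have h2 : dist (G (j x)).fst (G (j y)).fst ^ 2 = (dist x y) ^ 2 := by
    rw [h1, dist_eq_norm]
    ring
  exact (pow_left_inj₀ dist_nonneg dist_nonneg two_ne_zero).1 h2

/-- A flat of maximal dimension of the product is the product of a flat with the line. -/
theorem flat_split {N : ℕ} {G : EuclideanSpace ℝ (Fin (N + 1)) → PL Y} (hG : Isometry G)
    (hY : ¬ ∃ f : EuclideanSpace ℝ (Fin (N + 1)) → Y, Isometry f) :
    ∃ f : EuclideanSpace ℝ (Fin N) → Y, Isometry f ∧
      ∀ p : PL Y, p ∈ range G ↔ p.fst ∈ range f := by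
  obtain ⟨e, κ, he, hκ0, hκ1, hh, hd⟩ := flat_coordinates hG
  obtain ⟨j, hj, hj'⟩ := exists_embedding he
  have hκ : κ = 1 := by
    by_contra hne
    have hlt : κ < 1 := lt_of_le_of_ne hκ1 hne
    refine hY ?_
    have hpos : 0 < 1 - κ ^ 2 := by nlinarith
    set s : ℝ := 1 / Real.sqrt (1 - κ ^ 2) with hs
    have hs2 : s ^ 2 * (1 - κ ^ 2) = 1 := by
      rw [hs, div_pow, one_pow, Real.sq_sqrt hpos.le]
      field_simp
    refine ⟨fun x => (G (x + ((s - 1) * inner ℝ e x) • e)).fst, Isometry.of_dist_eq fun x y => ?_⟩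
    have h1 := hd (x + ((s - 1) * inner ℝ e x) • e) (y + ((s - 1) * inner ℝ e y) • e)
    have h2 : x + ((s - 1) * inner ℝ e x) • e - (y + ((s - 1) * inner ℝ e y) • e)
        = (x - y) + ((s - 1) * inner ℝ e (x - y)) • e := by
      rw [inner_sub_right]
      module
    have hee : inner ℝ e e = (1 : ℝ) := by rw [real_inner_self_eq_norm_sq, he]; norm_num
    have h3 : inner ℝ e ((x - y) + ((s - 1) * inner ℝ e (x - y)) • e)
        = s * inner ℝ e (x - y) := by
      rw [inner_add_right, inner_smul_right, hee]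
      ring
    have h4 : ‖(x - y) + ((s - 1) * inner ℝ e (x - y)) • e‖ ^ 2
        = ‖x - y‖ ^ 2 + (s ^ 2 - 1) * (inner ℝ e (x - y)) ^ 2 := by
      rw [norm_add_sq_real, inner_smul_right, norm_smul, he, real_inner_comm (x - y) e,
        Real.norm_eq_abs, mul_one, sq_abs]
      ring
    rw [h2, h3, h4] at h1
    have h5 : dist (G (x + ((s - 1) * inner ℝ e x) • e)).fst
        (G (y + ((s - 1) * inner ℝ e y) • e)).fst ^ 2 = (dist x y) ^ 2 := by
      rw [h1, dist_eq_norm]
      have : s ^ 2 - s ^ 2 * κ ^ 2 = 1 := by rw [← hs2]; ring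
      have h6 : (s ^ 2 - 1) * (inner ℝ e (x - y)) ^ 2 - κ ^ 2 * (s * inner ℝ e (x - y)) ^ 2 = 0 := by
        have : (s ^ 2 - 1) * (inner ℝ e (x - y)) ^ 2 - κ ^ 2 * (s * inner ℝ e (x - y)) ^ 2
          = (s ^ 2 - s ^ 2 * κ ^ 2 - 1) * (inner ℝ e (x - y)) ^ 2 := by ring
        rw [this, ‹s ^ 2 - s ^ 2 * κ ^ 2 = 1›]
        ring
      linarith
    exact (pow_left_inj₀ dist_nonneg dist_nonneg two_ne_zero).1 h5
  rw [hκ] at hh hd
  have hee : inner ℝ e e = (1 : ℝ) := by rw [real_inner_self_eq_norm_sq, he]; norm_num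
  -- moving along `e` does not change the first coordinate
  have hmove : ∀ x (t : ℝ), (G (x + t • e)).fst = (G x).fst := by
    intro x t
    have h1 := hd (x + t • e) x
    rw [add_sub_cancel_left, norm_smul, he, inner_smul_right, hee, Real.norm_eq_abs] at h1
    have h2 : dist (G (x + t • e)).fst (G x).fst ^ 2 = 0 := by
      rw [h1, mul_one, sq_abs]
      ring
    exact dist_eq_zero.1 (pow_eq_zero_iff two_ne_zero |>.1 h2)
  refine ⟨fun x => (G (j x)).fst, Isometry.of_dist_eq fun x y => ?_, fun p => ⟨?_, ?_⟩⟩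
  · have h1 := hd (j x) (j y)
    rw [← map_sub, hj, j.norm_map] at h1
    have h2 : dist (G (j x)).fst (G (j y)).fst ^ 2 = (dist x y) ^ 2 := by
      rw [h1, dist_eq_norm]
      ring
    exact (pow_left_inj₀ dist_nonneg dist_nonneg two_ne_zero).1 h2
  · rintro ⟨x, rfl⟩
    obtain ⟨x', hx'⟩ := hj' (x + (-(inner ℝ e x)) • e) (by
      rw [inner_add_right, inner_smul_right, hee]; ring)
    refine ⟨x', ?_⟩
    show (G (j x')).fst = (G x).fst
    rw [hx', hmove]
  · rintro ⟨x, hx⟩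
    have hx : (G (j x)).fst = p.fst := hx
    refine ⟨j x + (p.snd - (G 0).snd) • e, ?_⟩
    have h1 := hmove (j x) (p.snd - (G 0).snd)
    have h2 := hh (j x + (p.snd - (G 0).snd) • e)
    rw [inner_add_right, inner_smul_right, hee, hj] at h2
    have h3 : (G (j x + (p.snd - (G 0).snd) • e)).snd = p.snd := by rw [h2]; ring
    have h4 : dist (G (j x + (p.snd - (G 0).snd) • e)) p ^ 2 = 0 := by
      rw [dist_sq, h1, h3, hx, dist_self]
      ring
    exact dist_eq_zero.1 (pow_eq_zero_iff two_ne_zero |>.1 h4)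

/-- The rank of the product. -/
theorem prod_rank {m : ℕ} (h : HasRank Y m) : HasRank (PL Y) (m + 1) := by
  refine ⟨?_, ?_⟩
  · obtain ⟨f, hf⟩ := h.1
    refine ⟨fun x => pt (f (WithLp.toLp 2 fun i => x i.castSucc)) (x (Fin.last m)),
      Isometry.of_dist_eq fun x y => ?_⟩
    rw [dist_eq_iff dist_nonneg]
    show dist (f (WithLp.toLp 2 fun i => x i.castSucc)) (f (WithLp.toLp 2 fun i => y i.castSucc)) ^ 2
      + (x (Fin.last m) - y (Fin.last m)) ^ 2 = _
    rw [hf.dist_eq, EuclideanSpace.dist_eq, EuclideanSpace.dist_eq,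
      Real.sq_sqrt (Finset.sum_nonneg fun i _ => by positivity),
      Real.sq_sqrt (Finset.sum_nonneg fun i _ => by positivity), Fin.sum_univ_castSucc]
    congr 1
    rw [Real.dist_eq, sq_abs]
  · rintro ⟨G, hG⟩
    exact h.2 (flat_factor hG)

end

end Pool.Agent.Lib.MP_8eacf3_gt
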