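import Pool.Agent.Lib.MP_8eacf3_gt.Defs

set_option autoImplicit false

/-!
# MP_8eacf3_gt: the product of a CAT(0) space with the line
-/

namespace Pool.Agent.Lib.MP_8eacf3_gt

open Set

section

variable {Y : Type} [MetricSpace Y]

/-- The Euclidean product of `Y` with the line. -/
abbrev PL (Y : Type) [MetricSpace Y] : Type := WithLp 2 (Y × ℝ)

/-- the point of the product with given coordinates -/
abbrev pt (y : Y) (r : ℝ) : PL Y := WithLp.toLp 2 (y, r)

theorem dist_sq (p q : PL Y) :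
    dist p q ^ 2 = dist p.fst q.fst ^ 2 + (p.snd - q.snd) ^ 2 := by
  rw [WithLp.prod_dist_eq_add (by simp)]
  have h2 : (2 : ENNReal).toReal = 2 := by simp
  rw [h2, ← Real.sqrt_eq_rpow, Real.rpow_two, Real.rpow_two,
    Real.sq_sqrt (by positivity), Real.dist_eq, sq_abs]

theorem dist_eq_iff {p q : PL Y} {d : ℝ} (hd : 0 ≤ d) :
    dist p q = d ↔ dist p.fst q.fst ^ 2 + (p.snd - q.snd) ^ 2 = d ^ 2 := by
  rw [← dist_sq]
  constructor
  · intro h; rw [h]
  · intro h
    exact (pow_left_inj₀ dist_nonneg hd two_ne_zero).1 h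

/-- Three points on a geodesic of the product: the coordinates are on geodesics too. -/
theorem three_points {p q r : PL Y} {θ : ℝ} (h0 : 0 ≤ θ) (h1 : θ ≤ 1)
    (hpq : dist p q = θ * dist p r) (hqr : dist q r = (1 - θ) * dist p r) :
    dist p.fst q.fst = θ * dist p.fst r.fst ∧ dist q.fst r.fst = (1 - θ) * dist p.fst r.fst ∧
      q.snd = p.snd + θ * (r.snd - p.snd) := by
  have e1 := dist_sq p q
  have e2 := dist_sq q r
  have e3 := dist_sq p r
  rw [hpq] at e1
  rw [hqr] at e2
  have htri := dist_triangle p.fst q.fst r.fst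
  set a := dist p.fst q.fst with ha
  set b := dist q.fst r.fst with hb
  set c := dist p.fst r.fst with hc
  set D := dist p r with hD
  set α := q.snd - p.snd with hα
  set γ := r.snd - p.snd with hγ
  have ea : (p.snd - q.snd) ^ 2 = α ^ 2 := by rw [hα]; ring
  have eb : (q.snd - r.snd) ^ 2 = (γ - α) ^ 2 := by rw [hα, hγ]; ring
  have ec : (p.snd - r.snd) ^ 2 = γ ^ 2 := by rw [hγ]; ring
  rw [ea] at e1
  rw [eb] at e2
  rw [ec] at e3
  have ha0 : 0 ≤ a := dist_nonneg
  have hb0 : 0 ≤ b := dist_nonneg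
  have hc0 : 0 ≤ c := dist_nonneg
  -- the key inequality
  have key : ((1 - θ) * a - θ * b) ^ 2 + (α - θ * γ) ^ 2 + θ * (1 - θ) * ((a + b) ^ 2 - c ^ 2) = 0 := by
    have : ((1 - θ) * a - θ * b) ^ 2 + (α - θ * γ) ^ 2 + θ * (1 - θ) * ((a + b) ^ 2 - c ^ 2)
        = (1 - θ) * (a ^ 2 + α ^ 2) + θ * (b ^ 2 + (γ - α) ^ 2) - θ * (1 - θ) * (c ^ 2 + γ ^ 2) := by
      ring
    rw [this, ← e1, ← e2, ← e3]
    ring
  have hs : 0 ≤ (a + b) ^ 2 - c ^ 2 := by nlinarith
  have hs' : 0 ≤ θ * (1 - θ) * ((a + b) ^ 2 - c ^ 2) :=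
    mul_nonneg (mul_nonneg h0 (by linarith)) hs
  have k1 : (1 - θ) * a - θ * b = 0 := by
    have : ((1 - θ) * a - θ * b) ^ 2 = 0 := by
      nlinarith [sq_nonneg ((1 - θ) * a - θ * b), sq_nonneg (α - θ * γ)]
    exact pow_eq_zero_iff two_ne_zero |>.1 this
  have k2 : α - θ * γ = 0 := by
    have : (α - θ * γ) ^ 2 = 0 := by
      nlinarith [sq_nonneg ((1 - θ) * a - θ * b), sq_nonneg (α - θ * γ)]
    exact pow_eq_zero_iff two_ne_zero |>.1 this
  have k3 : α = θ * γ := by linarith
  -- now the first coordinates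
  rw [k3] at e1 e2
  have m1 : a ^ 2 = (θ * c) ^ 2 := by nlinarith
  have m2 : b ^ 2 = ((1 - θ) * c) ^ 2 := by nlinarith
  refine ⟨(pow_left_inj₀ ha0 (mul_nonneg h0 hc0) two_ne_zero).1 m1,
    (pow_left_inj₀ hb0 (mul_nonneg (by linarith) hc0) two_ne_zero).1 m2, ?_⟩
  linarith

/-- The CN inequality for the product. -/
theorem prod_cat0 (h : IsCAT0 Y) : IsCAT0 (PL Y) := by
  refine ⟨fun x y => ?_, fun x y m z hx hy => ?_⟩
  · obtain ⟨c, hc0, hc1, hc⟩ := h.1 x.fst y.fst
    by_cases hD : dist x y = 0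
    · have hxy : x = y := dist_eq_zero.1 hD
      refine ⟨fun _ => x, rfl, hxy, fun s hs t ht => ?_⟩
      rw [hD] at hs ht
      have h1 : s = 0 := le_antisymm hs.2 hs.1
      have h2 : t = 0 := le_antisymm ht.2 ht.1
      simp [h1, h2]
    · set D := dist x y with hDdef
      have hDpos : 0 < D := lt_of_le_of_ne dist_nonneg (Ne.symm hD)
      set l := dist x.fst y.fst / D with hl
      set k := (y.snd - x.snd) / D with hk
      have hlk : l ^ 2 + k ^ 2 = 1 := by
        have e := dist_sq x y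
        rw [← hDdef] at e
        rw [hl, hk, div_pow, div_pow, ← add_div, div_eq_one_iff_eq (by positivity), e]
        ring
      have hl0 : 0 ≤ l := div_nonneg dist_nonneg hDpos.le
      have hlD : l * D = dist x.fst y.fst := by rw [hl]; field_simp
      have hkD : k * D = y.snd - x.snd := by rw [hk]; field_simp
      refine ⟨fun s => pt (c (l * s)) (x.snd + k * s), ?_, ?_, fun s hs t ht => ?_⟩
      · simp only [mul_zero, hc0, add_zero]
        rfl
      · simp only [hlD, hkD, hc1]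
        have : x.snd + (y.snd - x.snd) = y.snd := by ring
        rw [this]
        rfl
      · rw [dist_eq_iff (abs_nonneg _)]
        have hs' : l * s ∈ Icc (0 : ℝ) (dist x.fst y.fst) :=
          ⟨mul_nonneg hl0 hs.1, by rw [← hlD]; exact mul_le_mul_of_nonneg_left hs.2 hl0⟩
        have ht' : l * t ∈ Icc (0 : ℝ) (dist x.fst y.fst) :=
          ⟨mul_nonneg hl0 ht.1, by rw [← hlD]; exact mul_le_mul_of_nonneg_left ht.2 hl0⟩
        show dist (c (l * s)) (c (l * t)) ^ 2 + (x.snd + k * s - (x.snd + k * t)) ^ 2 = _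
        rw [hc _ hs' _ ht', sq_abs, sq_abs]
        have : (l * s - l * t) ^ 2 + (x.snd + k * s - (x.snd + k * t)) ^ 2
            = (l ^ 2 + k ^ 2) * (s - t) ^ 2 := by ring
        rw [this, hlk, one_mul]
  · have hy' : dist m y = (1 - 1 / 2) * dist x y := by rw [dist_comm, hy]; ring
    obtain ⟨e1, e2, e3⟩ := three_points (θ := 1 / 2) (by norm_num) (by norm_num)
      (show dist x m = 1 / 2 * dist x y by rw [hx]; ring) hy'
    have hcn := h.2 x.fst y.fst m.fst z.fst (by rw [e1]; ring) (by rw [dist_comm, e2]; ring)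
    have := dist_sq z m
    have h1 := dist_sq z x
    have h2 := dist_sq z y
    have h3 := dist_sq x y
    rw [this, h1, h2, h3, e3]
    nlinarith

/-- A geodesic segment of the product has coordinates of constant speed. -/
theorem segment {a b : ℝ} (hab : a < b) {c : ℝ → PL Y}
    (hc : ∀ s ∈ Icc a b, ∀ t ∈ Icc a b, dist (c s) (c t) = |s - t|) :
    ∃ l k : ℝ, 0 ≤ l ∧ l ^ 2 + k ^ 2 = 1 ∧ ∀ s ∈ Icc a b, ∀ t ∈ Icc a b,
      dist (c s).fst (c t).fst = l * |s - t| ∧ (c t).snd = (c s).snd + k * (t - s) := by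
  have ha : a ∈ Icc a b := ⟨le_refl _, hab.le⟩
  have hb : b ∈ Icc a b := ⟨hab.le, le_refl _⟩
  have hba : 0 < b - a := by linarith
  set l := dist (c a).fst (c b).fst / (b - a) with hl
  set k := ((c b).snd - (c a).snd) / (b - a) with hk
  have hl0 : 0 ≤ l := div_nonneg dist_nonneg hba.le
  have hlba : dist (c a).fst (c b).fst = l * (b - a) := by rw [hl]; field_simp
  have hkba : (c b).snd - (c a).snd = k * (b - a) := by rw [hk]; field_simp
  -- from the start point
  have start : ∀ t ∈ Icc a b, dist (c a).fst (c t).fst = l * (t - a) ∧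
      (c t).snd = (c a).snd + k * (t - a) := by
    intro t ht
    have e1 : dist (c a) (c t) = (t - a) / (b - a) * dist (c a) (c b) := by
      rw [hc a ha t ht, hc a ha b hb, abs_sub_comm a t, abs_sub_comm a b,
        abs_of_nonneg (by linarith [ht.1]), abs_of_nonneg hba.le]
      field_simp
    have e2 : dist (c t) (c b) = (1 - (t - a) / (b - a)) * dist (c a) (c b) := by
      rw [hc t ht b hb, hc a ha b hb, abs_sub_comm t b, abs_sub_comm a b,
        abs_of_nonneg (by linarith [ht.2]), abs_of_nonneg hba.le]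
      field_simp
      ring
    have h0 : 0 ≤ (t - a) / (b - a) := div_nonneg (by linarith [ht.1]) hba.le
    have h1 : (t - a) / (b - a) ≤ 1 := by rw [div_le_one hba]; linarith [ht.2]
    obtain ⟨f1, -, f3⟩ := three_points h0 h1 e1 e2
    refine ⟨?_, ?_⟩
    · rw [f1, hlba]; field_simp
    · rw [f3, hkba]; field_simp
  -- ordered pairs
  have ord : ∀ s ∈ Icc a b, ∀ t ∈ Icc a b, s ≤ t →
      dist (c s).fst (c t).fst = l * (t - s) ∧ (c t).snd = (c s).snd + k * (t - s) := by
    intro s hs t ht hst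
    obtain ⟨s1, s2⟩ := start s hs
    obtain ⟨t1, t2⟩ := start t ht
    refine ⟨?_, by rw [t2, s2]; ring⟩
    have hsq := dist_sq (c s) (c t)
    have hsq2 := dist_sq (c a) (c t)
    rw [hc s hs t ht, sq_abs] at hsq
    rw [hc a ha t ht, sq_abs, t1, t2] at hsq2
    rw [t2, s2] at hsq
    have e1 : (l ^ 2 + k ^ 2) * (t - a) ^ 2 = (t - a) ^ 2 := by nlinarith
    rcases eq_or_lt_of_le ht.1 with h0 | h0
    · have hs0 : s = a := le_antisymm (by rw [h0]; exact hst) hs.1
      rw [hs0, ← h0]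
      simp
    · have hlk : l ^ 2 + k ^ 2 = 1 := by
        have hne : (t - a) ^ 2 ≠ 0 := by
          have : 0 < t - a := by linarith
          positivity
        exact mul_right_cancel₀ hne (by rw [e1, one_mul])
      have : dist (c s).fst (c t).fst ^ 2 = (l * (t - s)) ^ 2 := by nlinarith
      exact (pow_left_inj₀ dist_nonneg (mul_nonneg hl0 (by linarith)) two_ne_zero).1 this
  refine ⟨l, k, hl0, ?_, ?_⟩
  · have hsq := dist_sq (c a) (c b)
    rw [hc a ha b hb, sq_abs, hlba] at hsq
    have e1 : ((c a).snd - (c b).snd) ^ 2 = (k * (b - a)) ^ 2 := by rw [← hkba]; ring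
    rw [e1] at hsq
    have hne : (b - a) ^ 2 ≠ 0 := by positivity
    exact mul_right_cancel₀ hne (by rw [one_mul]; nlinarith)
  · intro s hs t ht
    rcases le_total s t with h | h
    · obtain ⟨h1, h2⟩ := ord s hs t ht h
      refine ⟨?_, h2⟩
      rw [h1, abs_sub_comm, abs_of_nonneg (by linarith)]
    · obtain ⟨h1, h2⟩ := ord t ht s hs h
      refine ⟨?_, by rw [h2]; ring⟩
      rw [dist_comm, h1, abs_of_nonneg (by linarith)]

/-- A complete geodesic of the product has coordinates of constant speed. -/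
theorem line {c : ℝ → PL Y} (hc : Isometry c) :
    ∃ l k : ℝ, 0 ≤ l ∧ l ^ 2 + k ^ 2 = 1 ∧ ∀ s t : ℝ,
      dist (c s).fst (c t).fst = l * |s - t| ∧ (c t).snd = (c s).snd + k * (t - s) := by
  have hc' : ∀ s t, dist (c s) (c t) = |s - t| := fun s t => by
    rw [hc.dist_eq, Real.dist_eq]
  obtain ⟨l, k, hl, hlk, h⟩ := segment (a := 0) (b := 1) one_pos (c := c)
    (fun s _ t _ => hc' s t)
  refine ⟨l, k, hl, hlk, fun s t => ?_⟩
  set M := max (max |s| |t|) 1 with hM
  have hM1 : 1 ≤ M := le_max_right _ _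
  have hMs : |s| ≤ M := (le_max_left _ _).trans (le_max_left _ _)
  have hMt : |t| ≤ M := (le_max_right _ _).trans (le_max_left _ _)
  obtain ⟨l', k', hl', -, h'⟩ := segment (a := -M) (b := M) (by linarith) (c := c)
    (fun s _ t _ => hc' s t)
  have m0 : (0 : ℝ) ∈ Icc (-M) M := ⟨by linarith, by linarith⟩
  have m1 : (1 : ℝ) ∈ Icc (-M) M := ⟨by linarith, by linarith⟩
  have u := h 0 ⟨le_refl _, zero_le_one⟩ 1 ⟨zero_le_one, le_refl _⟩
  have u' := h' 0 m0 1 m1
  have el : l = l' := by
    have := u.1.symm.trans u'.1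
    simpa using this
  have ek : k = k' := by
    have := u.2.symm.trans u'.2
    simpa using this
  rw [el, ek]
  exact h' s (abs_le.1 hMs) t (abs_le.1 hMt)

/-- Geodesic completeness of the product. -/
theorem prod_complete (h : IsGeodesicallyComplete Y) : IsGeodesicallyComplete (PL Y) := by
  intro a b c hab hc
  obtain ⟨l, k, hl, hlk, hseg⟩ := segment hab hc
  have ha : a ∈ Icc a b := ⟨le_refl _, hab.le⟩
  rcases eq_or_lt_of_le hl with h0 | h0
  · -- vertical
    refine ⟨fun s => pt (c a).fst ((c a).snd + k * (s - a)), ?_, fun s hs => ?_⟩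
    · refine Isometry.of_dist_eq fun s t => ?_
      rw [dist_eq_iff dist_nonneg, Real.dist_eq, sq_abs]
      show dist (c a).fst (c a).fst ^ 2 + ((c a).snd + k * (s - a) - ((c a).snd + k * (t - a))) ^ 2
        = _
      rw [dist_self]
      have hk : k ^ 2 = 1 := by rw [← h0] at hlk; linarith
      have : (0 : ℝ) ^ 2 + ((c a).snd + k * (s - a) - ((c a).snd + k * (t - a))) ^ 2
          = k ^ 2 * (s - t) ^ 2 := by ring
      rw [this, hk, one_mul]
    · obtain ⟨h1, h2⟩ := hseg a ha s hs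
      rw [← h0, zero_mul] at h1
      have h3 : (c a).fst = (c s).fst := dist_eq_zero.1 h1
      show pt (c a).fst ((c a).snd + k * (s - a)) = c s
      rw [h3, ← h2]
      rfl
  · obtain ⟨c', hc', hcc⟩ := h (l * a) (l * b) (fun x => (c (x / l)).fst)
      (mul_lt_mul_of_pos_left hab h0) (by
        intro s hs t ht
        have hs' : s / l ∈ Icc a b :=
          ⟨by rw [le_div_iff₀ h0]; linarith [hs.1], by rw [div_le_iff₀ h0]; linarith [hs.2]⟩
        have ht' : t / l ∈ Icc a b :=
          ⟨by rw [le_div_iff₀ h0]; linarith [ht.1], by rw [div_le_iff₀ h0]; linarith [ht.2]⟩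
        show dist (c (s / l)).fst (c (t / l)).fst = _
        rw [(hseg _ hs' _ ht').1, ← sub_div, abs_div, abs_of_pos h0]
        field_simp)
    refine ⟨fun s => pt (c' (l * s)) ((c a).snd + k * (s - a)), ?_, fun s hs => ?_⟩
    · refine Isometry.of_dist_eq fun s t => ?_
      rw [dist_eq_iff dist_nonneg, Real.dist_eq, sq_abs]
      show dist (c' (l * s)) (c' (l * t)) ^ 2
        + ((c a).snd + k * (s - a) - ((c a).snd + k * (t - a))) ^ 2 = _
      rw [hc'.dist_eq, Real.dist_eq, sq_abs]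
      have : (l * s - l * t) ^ 2 + ((c a).snd + k * (s - a) - ((c a).snd + k * (t - a))) ^ 2
          = (l ^ 2 + k ^ 2) * (s - t) ^ 2 := by ring
      rw [this, hlk, one_mul]
    · have hls : l * s ∈ Icc (l * a) (l * b) :=
        ⟨mul_le_mul_of_nonneg_left hs.1 hl, mul_le_mul_of_nonneg_left hs.2 hl⟩
      have h1 := hcc _ hls
      have h2 : l * s / l = s := by field_simp
      rw [h2] at h1
      show pt (c' (l * s)) ((c a).snd + k * (s - a)) = c s
      rw [h1, ← (hseg a ha s hs).2]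
      rfl

/-- Every complete geodesic of the product bounds a flat half-plane (as soon as the factor `Y`
contains a complete geodesic through every point). -/
theorem prod_halfPlanes (hY : ∀ y : Y, ∃ e : ℝ → Y, Isometry e ∧ e 0 = y) :
    LinesBoundHalfPlanes (PL Y) := by
  intro c hc
  obtain ⟨l, k, hl, hlk, h⟩ := line hc
  rcases eq_or_lt_of_le hl with h0 | h0
  · obtain ⟨e, he, he0⟩ := hY (c 0).fst
    have hk : k ^ 2 = 1 := by rw [← h0] at hlk; linarith
    refine ⟨fun p => pt (e p.2) ((c 0).snd + k * p.1), fun t => ?_, fun p q _ _ => ?_⟩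
    · obtain ⟨h1, h2⟩ := h 0 t
      rw [← h0, zero_mul] at h1
      have h3 : (c 0).fst = (c t).fst := dist_eq_zero.1 h1
      show pt (e 0) ((c 0).snd + k * t) = c t
      rw [sub_zero] at h2
      rw [he0, h3, ← h2]
      rfl
    · rw [dist_eq_iff (Real.sqrt_nonneg _), Real.sq_sqrt (by positivity)]
      show dist (e p.2) (e q.2) ^ 2 + ((c 0).snd + k * p.1 - ((c 0).snd + k * q.1)) ^ 2 = _
      rw [he.dist_eq, Real.dist_eq, sq_abs]
      have : (p.2 - q.2) ^ 2 + ((c 0).snd + k * p.1 - ((c 0).snd + k * q.1)) ^ 2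
          = k ^ 2 * (p.1 - q.1) ^ 2 + (p.2 - q.2) ^ 2 := by ring
      rw [this, hk, one_mul]
  · have he : ∀ x y : ℝ, dist (c (x / l)).fst (c (y / l)).fst = |x - y| := by
      intro x y
      rw [(h _ _).1, ← sub_div, abs_div, abs_of_pos h0]
      field_simp
    refine ⟨fun p => pt (c ((l * p.1 - k * p.2) / l)).fst ((c 0).snd + k * p.1 + l * p.2),
      fun t => ?_, fun p q _ _ => ?_⟩
    · have h2 : (l * t - k * 0) / l = t := by field_simp; ring
      show pt (c ((l * t - k * 0) / l)).fst ((c 0).snd + k * t + l * 0) = c t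
      have h3 := (h 0 t).2
      rw [sub_zero] at h3
      rw [h2, mul_zero, add_zero, ← h3]
      rfl
    · rw [dist_eq_iff (Real.sqrt_nonneg _), Real.sq_sqrt (by positivity)]
      show dist (c ((l * p.1 - k * p.2) / l)).fst (c ((l * q.1 - k * q.2) / l)).fst ^ 2
        + ((c 0).snd + k * p.1 + l * p.2 - ((c 0).snd + k * q.1 + l * q.2)) ^ 2 = _
      rw [he, sq_abs]
      have : (l * p.1 - k * p.2 - (l * q.1 - k * q.2)) ^ 2
          + ((c 0).snd + k * p.1 + l * p.2 - ((c 0).snd + k * q.1 + l * q.2)) ^ 2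
          = (l ^ 2 + k ^ 2) * ((p.1 - q.1) ^ 2 + (p.2 - q.2) ^ 2) := by ring
      rw [this, hlk, one_mul]

end

end Pool.Agent.Lib.MP_8eacf3_gt
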